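import Pool.Agent.Q163.SA.Alg

set_option autoImplicit false

open Filter Topology Pool.Agent.Q163.SA

namespace Pool.Agent.Results.MP_98688b_an.UnboundedSemiAmenable

universe u v

/-- A Banach bimodule structure on the normed space `X` over the algebra `A`:
`l a x = a · x` and `r a x = x · a`, both bounded bilinear. -/
structure Bimodule (A : Type u) (X : Type v) [NonUnitalNormedRing A] [NormedSpace ℂ A]
    [NormedAddCommGroup X] [NormedSpace ℂ X] where
  l : A →L[ℂ] X →L[ℂ] X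
  r : A →L[ℂ] X →L[ℂ] X
  l_mul : ∀ a b x, l (a * b) x = l a (l b x)
  r_mul : ∀ a b x, r (a * b) x = r b (r a x)
  comm : ∀ a b x, l a (r b x) = r b (l a x)

section

variable {A : Type u} {X : Type v} [NonUnitalNormedRing A] [NormedSpace ℂ A]
    [NormedAddCommGroup X] [NormedSpace ℂ X]

/-- Composition on the right with the operators `T a`: `pre T a φ = φ ∘ T a`. -/
noncomputable def pre (T : A →L[ℂ] X →L[ℂ] X) : A →L[ℂ] (X →L[ℂ] ℂ) →L[ℂ] (X →L[ℂ] ℂ) :=
  (ContinuousLinearMap.compL ℂ X X ℂ).flip.comp T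

lemma pre_apply (T : A →L[ℂ] X →L[ℂ] X) (a : A) (φ : X →L[ℂ] ℂ) (x : X) :
    pre T a φ x = φ (T a x) := rfl

lemma dual_l_mul (M : Bimodule A X) (a b : A) (φ : X →L[ℂ] ℂ) :
    pre M.r (a * b) φ = pre M.r a (pre M.r b φ) := by
  ext x
  rw [pre_apply, pre_apply, pre_apply, M.r_mul]

lemma dual_r_mul (M : Bimodule A X) (a b : A) (φ : X →L[ℂ] ℂ) :
    pre M.l (a * b) φ = pre M.l b (pre M.l a φ) := by
  ext x
  rw [pre_apply, pre_apply, pre_apply, M.l_mul]

lemma dual_comm (M : Bimodule A X) (a b : A) (φ : X →L[ℂ] ℂ) :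
    pre M.r a (pre M.l b φ) = pre M.l b (pre M.r a φ) := by
  ext x
  rw [pre_apply, pre_apply, pre_apply, pre_apply, M.comm]

/-- The dual bimodule: `(a · φ) x = φ (x · a)` and `(φ · a) x = φ (a · x)`. -/
noncomputable def Bimodule.dual (M : Bimodule A X) : Bimodule A (X →L[ℂ] ℂ) where
  l := pre M.r
  r := pre M.l
  l_mul := dual_l_mul M
  r_mul := dual_r_mul M
  comm := dual_comm M

/-- The map `a ↦ a · ξ - η · a`. -/
noncomputable def Bimodule.ad (M : Bimodule A X) (ξ η : X) : A →L[ℂ] X :=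
  M.l.flip ξ - M.r.flip η

/-- `D` is a (continuous) derivation. -/
def IsDerivation (M : Bimodule A X) (D : A →L[ℂ] X) : Prop :=
  ∀ a b, D (a * b) = M.l a (D b) + M.r b (D a)

/-- `D` is approximately semi-inner: `D a = lim (a · ξ_i - η_i · a)` in norm for each `a`, the
limit being along a proper filter on the set of pairs `(ξ, η)` (i.e. along a net of pairs). -/
def ApproxSemiInner (M : Bimodule A X) (D : A →L[ℂ] X) : Prop :=
  ∃ F : Filter (X × X), F.NeBot ∧ ∀ a, Tendsto (fun z : X × X => M.ad z.1 z.2 a) F (𝓝 (D a))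

/-- The same with a bound `‖ad_{ξ_i, η_i}‖ ≤ K` along the net. -/
def BddApproxSemiInner (M : Bimodule A X) (D : A →L[ℂ] X) : Prop :=
  ∃ K : ℝ, ∃ F : Filter (X × X), F.NeBot ∧ (∀ᶠ z in F, ‖M.ad z.1 z.2‖ ≤ K) ∧
    ∀ a, Tendsto (fun z : X × X => M.ad z.1 z.2 a) F (𝓝 (D a))

end

/-- Approximate semi-amenability (Banach bimodules in the universe `v`). -/
def ApproxSemiAmenable (A : Type u) [NonUnitalNormedRing A] [NormedSpace ℂ A] : Prop :=
  ∀ (X : Type v) [NormedAddCommGroup X] [NormedSpace ℂ X] [CompleteSpace X] (M : Bimodule A X)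
    (D : A →L[ℂ] (X →L[ℂ] ℂ)), IsDerivation M.dual D → ApproxSemiInner M.dual D

/-- Bounded approximate semi-amenability (Banach bimodules in the universe `v`). -/
def BddApproxSemiAmenable (A : Type u) [NonUnitalNormedRing A] [NormedSpace ℂ A] : Prop :=
  ∀ (X : Type v) [NormedAddCommGroup X] [NormedSpace ℂ X] [CompleteSpace X] (M : Bimodule A X)
    (D : A →L[ℂ] (X →L[ℂ] ℂ)), IsDerivation M.dual D → BddApproxSemiInner M.dual D

section pos

variable {Y : Type v} [NormedAddCommGroup Y] [NormedSpace ℂ Y] [CompleteSpace Y]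
  (M : Bimodule Alg Y) (D : Alg →L[ℂ] Y)

/-- The base index. -/
def o : I := .inl 0

lemma P_oo : P o o = 1 := by simp [P, o]

/-- The map `E (i, v) ↦ E (i, o) · D (E (o, v))`. -/
noncomputable def Psi : Alg →L[ℂ] Y :=
  liftA (fun s => M.l (EA (s.1, o)) (D (EA (o, s.2)))) (‖M.l‖ * ‖D‖) (fun s => by
    calc ‖M.l (EA (s.1, o)) (D (EA (o, s.2)))‖ ≤ ‖M.l (EA (s.1, o))‖ * ‖D (EA (o, s.2))‖ :=
          (M.l (EA (s.1, o))).le_opNorm _
      _ ≤ (‖M.l‖ * ‖EA (s.1, o)‖) * (‖D‖ * ‖EA (o, s.2)‖) := by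
          gcongr
          · exact M.l.le_opNorm _
          · exact D.le_opNorm _
      _ = ‖M.l‖ * ‖D‖ := by rw [norm_EA, norm_EA, mul_one, mul_one])

lemma Psi_left (a b : Alg) : Psi M D (a * b) = M.l a (Psi M D b) := by
  refine clm_extA ((Psi M D).comp (mulA.flip b)) (M.l.flip (Psi M D b)) (fun s => ?_) a
  refine clm_extA ((Psi M D).comp (mulA (EA s))) ((M.l (EA s)).comp (Psi M D)) (fun t => ?_) b
  simp only [ContinuousLinearMap.comp_apply, mulA_apply, EA_mul, map_smul, Psi, liftA_EA]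
  rw [← M.l_mul, EA_mul, map_smul]
  rfl

lemma Psi_right (hD : IsDerivation M D) (a b : Alg) :
    Psi M D (b * a) = M.l b (D a) + M.r a (Psi M D b) := by
  refine clm_extA ((Psi M D).comp (mulA.flip a)) (M.l.flip (D a) + (M.r a).comp (Psi M D))
    (fun s => ?_) b
  refine clm_extA ((Psi M D).comp (mulA (EA s))) ((M.l (EA s)).comp D + M.r.flip (Psi M D (EA s)))
    (fun t => ?_) a
  simp only [ContinuousLinearMap.comp_apply, mulA_apply, EA_mul, map_smul, Psi, liftA_EA, add_apply,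
    ContinuousLinearMap.flip_apply]
  have h1 := hD (EA (o, s.2)) (EA t)
  rw [EA_mul, map_smul] at h1
  have h2 := congrArg (M.l (EA (s.1, o))) h1
  rw [map_smul, map_add, ← M.l_mul, EA_mul, M.comm] at h2
  simp only [P_oo, one_smul] at h2
  exact h2

lemma key (hD : IsDerivation M D) (e a : Alg) :
    M.ad (Psi M D e) (Psi M D e - D e) a =
      Psi M D (a * e) - Psi M D (e * a) + D (e * a) := by
  rw [Psi_left, Psi_right M D hD, hD e a]
  simp only [Bimodule.ad, sub_apply, ContinuousLinearMap.flip_apply, map_sub]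
  abel

lemma approxSemiInner (hD : IsDerivation M D) : ApproxSemiInner M D := by
  set Φ : Y × Y → Alg → Y := fun z a => M.ad z.1 z.2 a with hΦ
  have h1 : ∀ N, (fun a => Psi M D (Q'A N a) - Psi M D (QA N a) + D (QA N a)) ∈
      closure (Set.range Φ) := by
    intro N
    refine mem_closure_of_tendsto (f := fun m : ℕ => Φ (Psi M D (eA N m), Psi M D (eA N m) -
      D (eA N m))) (b := atTop) ?_ (Eventually.of_forall fun m => Set.mem_range_self _)
    refine tendsto_pi_nhds.2 fun a => ?_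
    simp only [hΦ, key M D hD]
    exact ((((Psi M D).continuous.tendsto _).comp (rightA_tendsto N a)).sub
      (((Psi M D).continuous.tendsto _).comp (leftA_tendsto N a))).add
      ((D.continuous.tendsto _).comp (leftA_tendsto N a))
  have h2 : (fun a => D a) ∈ closure (Set.range Φ) := by
    refine isClosed_closure.mem_of_tendsto (b := atTop) ?_ (Eventually.of_forall h1)
    refine tendsto_pi_nhds.2 fun a => ?_
    have := ((((Psi M D).continuous.tendsto _).comp (Q'A_tendsto a)).sub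
      (((Psi M D).continuous.tendsto _).comp (QA_tendsto a))).add
      ((D.continuous.tendsto _).comp (QA_tendsto a))
    simpa using this
  refine ⟨comap Φ (𝓝 fun a => D a), ?_, ?_⟩
  · rw [comap_neBot_iff_frequently]
    exact mem_closure_iff_frequently.1 h2
  · intro a
    exact (tendsto_pi_nhds.1 (tendsto_comap (f := Φ) (x := 𝓝 fun a => D a))) a

end pos

section neg

/-- The bimodule `A*` with `(a · ψ) b = ψ (b a)` and zero right action. -/
noncomputable def Mneg : Bimodule Alg (Alg →L[ℂ] ℂ) where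
  l := (ContinuousLinearMap.compL ℂ Alg Alg ℂ).flip.comp mulA.flip
  r := 0
  l_mul a b ψ := by
    ext c
    simp [mulA_apply, mul_assoc]
  r_mul a b ψ := by simp
  comm a b ψ := by simp

lemma Mneg_l (a b : Alg) (ψ : Alg →L[ℂ] ℂ) : Mneg.l a ψ b = ψ (b * a) := rfl

/-- The canonical embedding `A → A**`. -/
noncomputable def Dneg : Alg →L[ℂ] ((Alg →L[ℂ] ℂ) →L[ℂ] ℂ) :=
  ContinuousLinearMap.apply ℂ ℂ

lemma Dneg_apply (a : Alg) (ψ : Alg →L[ℂ] ℂ) : Dneg a ψ = ψ a := rfl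

lemma dual_l (a : Alg) (φ : (Alg →L[ℂ] ℂ) →L[ℂ] ℂ) (ψ : Alg →L[ℂ] ℂ) :
    Mneg.dual.l a φ ψ = 0 := by
  change φ ((0 : Alg →L[ℂ] (Alg →L[ℂ] ℂ) →L[ℂ] (Alg →L[ℂ] ℂ)) a ψ) = 0
  simp

lemma dual_r (a : Alg) (φ : (Alg →L[ℂ] ℂ) →L[ℂ] ℂ) (ψ : Alg →L[ℂ] ℂ) :
    Mneg.dual.r a φ ψ = φ (Mneg.l a ψ) := rfl

lemma Dneg_der : IsDerivation Mneg.dual Dneg := by
  intro a b
  ext ψ
  rw [add_apply, dual_l, dual_r, zero_add]
  rfl

/-- The sum of the entries. -/
noncomputable def σ : Alg →L[ℂ] ℂ := liftA (fun _ => 1) 1 (fun _ => by simp)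

lemma σ_EA (s : S) : σ (EA s) = 1 := liftA_EA _ _ _ s

lemma norm_σ : ‖σ‖ ≤ 1 := norm_liftA_le _ _ _ zero_le_one

lemma col_bound (n k : ℕ) (v : I) :
    ‖P v (.inr (n, k)) - ((n : ℂ) + 1) * P v (.inl n)‖ ≤ ((k : ℝ) + 1)⁻¹ := by
  have h0 : (0 : ℝ) ≤ ((k : ℝ) + 1)⁻¹ := by positivity
  rcases v with n' | q
  · simp only [P]
    by_cases h : n' = n
    · subst h
      simp [ne1, h0]
    · simp [h, h0]
  · simp only [P, mul_zero, sub_zero]
    split_ifs with h
    · subst h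
      rw [norm_inv, norm_natCast_add_one]
    · simpa using h0

lemma col (n k : ℕ) :
    ‖Mneg.l (EA (.inr (n, k), o)) σ - ((n : ℂ) + 1) • Mneg.l (EA (.inl n, o)) σ‖ ≤
      ((k : ℝ) + 1)⁻¹ := by
  have h : Mneg.l (EA (.inr (n, k), o)) σ - ((n : ℂ) + 1) • Mneg.l (EA (.inl n, o)) σ =
      liftA (fun s => P s.2 (.inr (n, k)) - ((n : ℂ) + 1) * P s.2 (.inl n)) ((k : ℝ) + 1)⁻¹
        (fun s => col_bound n k s.2) := by
    refine ContinuousLinearMap.ext fun a => clm_extA _ _ (fun s => ?_) a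
    rw [sub_apply, smul_apply, Mneg_l, Mneg_l, liftA_EA, EA_mul, EA_mul, map_smul, map_smul, σ_EA]
    simp
  rw [h]
  exact norm_liftA_le _ _ _ (by positivity)

lemma ad_eval (ξ η : (Alg →L[ℂ] ℂ) →L[ℂ] ℂ) (b : Alg) :
    Mneg.dual.ad ξ η b σ = - η (Mneg.l b σ) := by
  simp only [Bimodule.ad, sub_apply, ContinuousLinearMap.flip_apply, dual_l, dual_r, zero_sub]

/-- A bound for `ad` forces `|(ad E(n, o)) σ| ≤ K / (n + 1)`. -/
lemma bound_small (K : ℝ) (n : ℕ) (ξ η : (Alg →L[ℂ] ℂ) →L[ℂ] ℂ)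
    (h : ‖Mneg.dual.ad ξ η‖ ≤ K) :
    ((n : ℝ) + 1) * ‖Mneg.dual.ad ξ η (EA (.inl n, o)) σ‖ ≤ K := by
  have h1 : ∀ k : ℕ, ‖η (Mneg.l (EA (.inr (n, k), o)) σ)‖ ≤ K := by
    intro k
    rw [← norm_neg, ← ad_eval ξ η]
    calc ‖Mneg.dual.ad ξ η (EA (.inr (n, k), o)) σ‖ ≤
          ‖Mneg.dual.ad ξ η (EA (.inr (n, k), o))‖ * ‖σ‖ := ContinuousLinearMap.le_opNorm _ _
      _ ≤ (‖Mneg.dual.ad ξ η‖ * ‖EA (.inr (n, k), o)‖) * 1 := by
          gcongr
          · exact ContinuousLinearMap.le_opNorm _ _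
          · exact norm_σ
      _ ≤ K := by rw [norm_EA, mul_one, mul_one]; exact h
  have h2 : Tendsto (fun k : ℕ => η (Mneg.l (EA (.inr (n, k), o)) σ)) atTop
      (𝓝 (η (((n : ℂ) + 1) • Mneg.l (EA (.inl n, o)) σ))) := by
    refine (η.continuous.tendsto _).comp ?_
    rw [tendsto_iff_norm_sub_tendsto_zero]
    refine squeeze_zero (fun _ => norm_nonneg _) (fun k => col n k) ?_
    exact tendsto_inv_atTop_zero.comp
      (tendsto_atTop_add_const_right _ _ tendsto_natCast_atTop_atTop)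
  have h3 := le_of_tendsto h2.norm (Eventually.of_forall h1)
  rw [map_smul, norm_smul, norm_natCast_add_one] at h3
  rwa [ad_eval, norm_neg]

lemma not_bdd : ¬ BddApproxSemiInner Mneg.dual Dneg := by
  rintro ⟨K, F, hF, hb, ht⟩
  obtain ⟨n, hn⟩ := exists_nat_gt K
  have h1 : Tendsto (fun z : ((Alg →L[ℂ] ℂ) →L[ℂ] ℂ) × ((Alg →L[ℂ] ℂ) →L[ℂ] ℂ) =>
      ((n : ℝ) + 1) * ‖Mneg.dual.ad z.1 z.2 (EA (.inl n, o)) σ‖) F
      (𝓝 (((n : ℝ) + 1) * ‖Dneg (EA (.inl n, o)) σ‖)) := by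
    refine Tendsto.const_mul _ (Tendsto.norm ?_)
    exact ((ContinuousLinearMap.apply ℂ ℂ σ).continuous.tendsto _).comp (ht (EA (.inl n, o)))
  have h2 := le_of_tendsto h1 (hb.mono fun z hz => bound_small K n z.1 z.2 hz)
  rw [Dneg_apply, σ_EA] at h2
  simp at h2
  linarith

end neg

/-- There is an approximately semi-amenable Banach algebra which is not boundedly approximately
semi-amenable. -/
theorem result :
    ∃ (A : Type) (_ : NonUnitalNormedRing A) (_ : NormedSpace ℂ A) (_ : IsScalarTower ℂ A A)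
      (_ : SMulCommClass ℂ A A) (_ : CompleteSpace A),
      ApproxSemiAmenable.{0, v} A ∧ ¬ BddApproxSemiAmenable.{0, 0} A := by
  refine ⟨Alg, inferInstance, inferInstance, inferInstance, inferInstance, inferInstance, ?_, ?_⟩
  · intro X _ _ _ M D hD
    exact approxSemiInner M.dual D hD
  · intro h
    exact not_bdd (h (Alg →L[ℂ] ℂ) Mneg Dneg Dneg_der)

end Pool.Agent.Results.MP_98688b_an.UnboundedSemiAmenable
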